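import Pool.Agent.TH672.Sem
import Pool.Agent.TH672.Ext
import Pool.Agent.TH894.J104
import Pool.Agent.TH811.J101

/-!
# Truth of the sentences on provability in the standard structure (job 197)
-/

set_option autoImplicit false
namespace Pool.Agent.TH672
open Fm

namespace J197

open Form

/-! ### Unique readability -/

lemma varStr_pf : ∀ (x y : ℕ) {a b : List Bool}, varStr x ++ a = varStr y ++ b → x = y ∧ a = b
  | 0, 0, a, b, h => by simpa [varStr] using h
  | 0, y + 1, a, b, h => by simp [varStr, List.replicate_succ] at h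
  | x + 1, 0, a, b, h => by simp [varStr, List.replicate_succ] at h
  | x + 1, y + 1, a, b, h => by
    have h1 : varStr x ++ a = varStr y ++ b := by
      simpa [varStr, List.replicate_succ] using h
    obtain ⟨h2, h3⟩ := varStr_pf x y h1
    exact ⟨by rw [h2], h3⟩

lemma str_pf : ∀ (φ ψ : Form) {a b : List Bool}, φ.str ++ a = ψ.str ++ b → φ = ψ ∧ a = b := by
  intro φ
  induction φ with
  | bot => 
    intro ψ a b h
    cases ψ <;> simp [Form.str] at h ⊢
    exact h
  | eq x y =>
    intro ψ a b h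
    cases ψ <;> simp only [Form.str, List.cons_append, List.nil_append, List.append_assoc,
      List.cons.injEq, Bool.false_eq_true, Bool.true_eq_false, false_and, and_false, true_and] at h
    obtain ⟨h1, g1⟩ := varStr_pf _ _ h
    obtain ⟨h2, g2⟩ := varStr_pf _ _ g1
    exact ⟨by rw [h1, h2], g2⟩
  | zero x =>
    intro ψ a b h
    cases ψ <;> simp only [Form.str, List.cons_append, List.nil_append, List.append_assoc,
      List.cons.injEq, Bool.false_eq_true, Bool.true_eq_false, false_and, and_false, true_and] at h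
    obtain ⟨h1, g1⟩ := varStr_pf _ _ h
    exact ⟨by rw [h1], g1⟩
  | succ x y =>
    intro ψ a b h
    cases ψ <;> simp only [Form.str, List.cons_append, List.nil_append, List.append_assoc,
      List.cons.injEq, Bool.false_eq_true, Bool.true_eq_false, false_and, and_false, true_and] at h
    obtain ⟨h1, g1⟩ := varStr_pf _ _ h
    obtain ⟨h2, g2⟩ := varStr_pf _ _ g1
    exact ⟨by rw [h1, h2], g2⟩
  | add x y z =>
    intro ψ a b h
    cases ψ <;> simp only [Form.str, List.cons_append, List.nil_append, List.append_assoc,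
      List.cons.injEq, Bool.false_eq_true, Bool.true_eq_false, false_and, and_false, true_and] at h
    obtain ⟨h1, g1⟩ := varStr_pf _ _ h
    obtain ⟨h2, g2⟩ := varStr_pf _ _ g1
    obtain ⟨h3, g3⟩ := varStr_pf _ _ g2
    exact ⟨by rw [h1, h2, h3], g3⟩
  | mul x y z =>
    intro ψ a b h
    cases ψ <;> simp only [Form.str, List.cons_append, List.nil_append, List.append_assoc,
      List.cons.injEq, Bool.false_eq_true, Bool.true_eq_false, false_and, and_false, true_and] at h
    obtain ⟨h1, g1⟩ := varStr_pf _ _ h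
    obtain ⟨h2, g2⟩ := varStr_pf _ _ g1
    obtain ⟨h3, g3⟩ := varStr_pf _ _ g2
    exact ⟨by rw [h1, h2, h3], g3⟩
  | imp φ φ' ih ih' =>
    intro ψ a b h
    cases ψ <;> simp only [Form.str, List.cons_append, List.nil_append, List.append_assoc,
      List.cons.injEq, Bool.false_eq_true, Bool.true_eq_false, false_and, and_false, true_and] at h
    obtain ⟨h1, g1⟩ := ih _ h
    obtain ⟨h2, g2⟩ := ih' _ g1
    exact ⟨by rw [h1, h2], g2⟩
  | all x φ ih =>
    intro ψ a b h
    cases ψ <;> simp only [Form.str, List.cons_append, List.nil_append, List.append_assoc,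
      List.cons.injEq, Bool.false_eq_true, Bool.true_eq_false, false_and, and_false, true_and] at h
    obtain ⟨h1, g1⟩ := varStr_pf _ _ h
    obtain ⟨h2, g2⟩ := ih _ g1
    exact ⟨by rw [h1, h2], g2⟩

lemma str_inj {φ ψ : Form} (h : φ.str = ψ.str) : φ = ψ :=
  (str_pf φ ψ (a := []) (b := []) (by simpa using h)).1

lemma code1_inj {φ ψ : Form} (h : code [φ] = code [ψ]) : φ = ψ := by
  rw [R104.code_single, R104.code_single] at h
  exact str_inj (R104.num_inj h)

lemma strs_inj : ∀ {Γ Δ : List Form}, strs Γ = strs Δ → Γ = Δ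
  | [], [], _ => rfl
  | [], ψ :: Δ, h => by
    exfalso
    have h1 := congrArg List.length h
    simp only [strs, List.flatMap_nil, List.flatMap_cons, List.length_append, List.length_nil] at h1
    have h2 := Ext.len_pos ψ
    simp only [Form.len] at h2
    omega
  | φ :: Γ, [], h => by
    exfalso
    have h1 := congrArg List.length h
    simp only [strs, List.flatMap_nil, List.flatMap_cons, List.length_append, List.length_nil] at h1
    have h2 := Ext.len_pos φ
    simp only [Form.len] at h2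
    omega
  | φ :: Γ, ψ :: Δ, h => by
    simp only [strs, List.flatMap_cons] at h
    obtain ⟨h1, h2⟩ := str_pf _ _ h
    rw [h1, strs_inj h2]

lemma code_inj {Γ Δ : List Form} (h : code Γ = code Δ) : Γ = Δ := strs_inj (R104.num_inj h)

/-! ### Codes of closed instances -/

lemma slot_code_inj : ∀ {a b : Slot}, a.code = b.code → a = b
  | .bd i, .bd j, h => by simpa [Slot.code, Nat.pair_eq_pair] using h
  | .bd i, .par j, h => by simp [Slot.code, Nat.pair_eq_pair] at h
  | .par i, .bd j, h => by simp [Slot.code, Nat.pair_eq_pair] at h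
  | .par i, .par j, h => by simpa [Slot.code, Nat.pair_eq_pair] using h

lemma db_inj : ∀ {f g : DB}, f.code = g.code → f = g := by
  intro f
  induction f with
  | atom k a b c =>
    intro g h
    cases g <;> simp only [DB.code, Nat.pair_eq_pair] at h
    · obtain ⟨_, h1, h2, h3, h4⟩ := h
      rw [h1, slot_code_inj h2, slot_code_inj h3, slot_code_inj h4]
    · omega
    · omega
  | imp f f' ih ih' =>
    intro g h
    cases g <;> simp only [DB.code, Nat.pair_eq_pair] at h
    · omega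
    · obtain ⟨_, h1, h2⟩ := h
      rw [ih h1, ih' h2]
    · omega
  | all f ih =>
    intro g h
    cases g <;> simp only [DB.code, Nat.pair_eq_pair] at h
    · omega
    · omega
    · obtain ⟨_, h1⟩ := h
      rw [ih h1]

/-! ### Instances -/

lemma slot_put (s : ℕ → ℕ) (σ : List ℕ) (x a u : ℕ) :
    (slot s (σ ++ [x]) u).put σ.length a = slot (Function.update s x a) σ u := by
  unfold slot
  by_cases h : u ∈ σ
  · rw [if_pos (List.mem_append_left _ h), if_pos h]
    have h1 : List.idxOf u (σ ++ [x]) = List.idxOf u σ := List.idxOf_append_of_mem h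
    have h2 : List.idxOf u σ < σ.length := List.idxOf_lt_length_of_mem h
    rw [h1]
    simp only [Slot.put]
    rw [if_neg (by omega)]
  · rw [if_neg h]
    by_cases hx : u = x
    · subst hx
      rw [if_pos (by simp)]
      have h1 : List.idxOf u (σ ++ [u]) = σ.length := by
        rw [List.idxOf_append_of_notMem h]
        simp
      rw [h1]
      simp [Slot.put]
    · rw [if_neg (by simp [h, hx])]
      simp [Slot.put, Function.update_of_ne hx]

lemma put_par (k a b : ℕ) : (Slot.par b).put k a = .par b := rfl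

lemma put_clo (s : ℕ → ℕ) (x a : ℕ) : ∀ (φ : Form) (σ : List ℕ),
    (clo s φ (σ ++ [x])).put a σ.length = clo (Function.update s x a) φ σ := by
  intro φ
  induction φ with
  | bot => intro σ; simp [clo, DB.put, Slot.put]
  | eq u v => intro σ; simp [clo, DB.put, slot_put, put_par]
  | zero u => intro σ; simp [clo, DB.put, slot_put, put_par]
  | succ u v => intro σ; simp [clo, DB.put, slot_put, put_par]
  | add u v w => intro σ; simp [clo, DB.put, slot_put]
  | mul u v w => intro σ; simp [clo, DB.put, slot_put]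
  | imp φ ψ ih ih' => intro σ; simp [clo, DB.put, ih, ih']
  | all y φ ih =>
    intro σ
    have h := ih (y :: σ)
    simp only [List.cons_append, List.length_cons] at h
    simp [clo, DB.put, h]

lemma put_clo0 (s : ℕ → ℕ) (x a : ℕ) (φ : Form) :
    (clo s φ [x]).put a 0 = clo (Function.update s x a) φ [] := put_clo s x a φ []

lemma slot_congr {s s' : ℕ → ℕ} {σ : List ℕ} {u : ℕ} (h : u ∉ σ → s u = s' u) :
    slot s σ u = slot s' σ u := by
  unfold slot
  split_ifs with h1
  · rfl
  · rw [h h1]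

lemma clo_congr {s s' : ℕ → ℕ} : ∀ {φ : Form} {σ : List ℕ},
    (∀ u, φ.Free u → u ∉ σ → s u = s' u) → clo s φ σ = clo s' φ σ := by
  intro φ
  induction φ with
  | bot => intro σ h; rfl
  | eq u v =>
    intro σ h
    simp only [Form.Free] at h
    simp only [clo, slot_congr (h u (Or.inl rfl)), slot_congr (h v (Or.inr rfl))]
  | zero u =>
    intro σ h
    simp only [Form.Free] at h
    simp only [clo, slot_congr (h u rfl)]
  | succ u v =>
    intro σ h
    simp only [Form.Free] at h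
    simp only [clo, slot_congr (h u (Or.inl rfl)), slot_congr (h v (Or.inr rfl))]
  | add u v w =>
    intro σ h
    simp only [Form.Free] at h
    simp only [clo, slot_congr (h u (Or.inl rfl)), slot_congr (h v (Or.inr (Or.inl rfl))),
      slot_congr (h w (Or.inr (Or.inr rfl)))]
  | mul u v w =>
    intro σ h
    simp only [Form.Free] at h
    simp only [clo, slot_congr (h u (Or.inl rfl)), slot_congr (h v (Or.inr (Or.inl rfl))),
      slot_congr (h w (Or.inr (Or.inr rfl)))]
  | imp φ ψ ih ih' =>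
    intro σ h
    simp only [Form.Free] at h
    simp only [clo]
    rw [ih fun u hu => h u (Or.inl hu), ih' fun u hu => h u (Or.inr hu)]
  | all y φ ih =>
    intro σ h
    simp only [Form.Free] at h
    simp only [clo]
    rw [ih fun u hu hn => ?_]
    rw [List.mem_cons, not_or] at hn
    exact h u ⟨hn.1, hu⟩ hn.2

lemma clo_upd_of_not_free {s : ℕ → ℕ} {φ : Form} {x : ℕ} (a : ℕ) (h : ¬ φ.Free x)
    (σ : List ℕ) : clo (Function.update s x a) φ σ = clo s φ σ := by
  apply clo_congr
  intro u hu _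
  have : u ≠ x := fun e => h (e ▸ hu)
  rw [Function.update_of_ne this]

lemma slot_ren {s : ℕ → ℕ} {σ : List ℕ} {x y : ℕ} (hx : x ∉ σ) (hy : y ∉ σ) (u : ℕ) :
    slot s σ (ren x y u) = slot (Function.update s x (s y)) σ u := by
  unfold ren
  by_cases h : u = x
  · subst h
    rw [if_pos rfl]
    simp [slot, hx, hy]
  · rw [if_neg h]
    unfold slot
    rw [Function.update_of_ne h]

lemma clo_subst {s : ℕ → ℕ} {x y : ℕ} : ∀ {φ : Form} {σ : List ℕ}, φ.FreeFor y x → x ∉ σ →
    y ∉ σ → clo s (φ.subst x y) σ = clo (Function.update s x (s y)) φ σ := by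
  intro φ
  induction φ with
  | bot => intro σ _ _ _; rfl
  | eq u v => intro σ _ hx hy; simp only [Form.subst, clo, slot_ren hx hy]
  | zero u => intro σ _ hx hy; simp only [Form.subst, clo, slot_ren hx hy]
  | succ u v => intro σ _ hx hy; simp only [Form.subst, clo, slot_ren hx hy]
  | add u v w => intro σ _ hx hy; simp only [Form.subst, clo, slot_ren hx hy]
  | mul u v w => intro σ _ hx hy; simp only [Form.subst, clo, slot_ren hx hy]
  | imp φ ψ ih ih' =>
    intro σ h hx hy
    simp only [Form.subst, clo]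
    rw [ih h.1 hx hy, ih' h.2 hx hy]
  | all u φ ih =>
    intro σ h hx hy
    unfold Form.subst
    split_ifs with hu
    · subst hu
      simp only [clo]
      congr 1
      apply clo_congr
      intro v _ hv
      rw [List.mem_cons, not_or] at hv
      rw [Function.update_of_ne hv.1]
    · simp only [clo]
      congr 1
      unfold Form.FreeFor at h
      rcases h with h | h | ⟨h1, h2⟩
      · exact absurd h hu
      · rw [subst_of_not_free y h, clo_upd_of_not_free _ h]
      · exact ih h2 (by rw [List.mem_cons, not_or]; exact ⟨fun e => hu e.symm, hx⟩)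
          (by rw [List.mem_cons, not_or]; exact ⟨fun e => h1 e.symm, hy⟩)

/-- assignments can be changed -/
lemma exists_asg : ∀ (x s a : ℕ), ∃ s', asg s' = Function.update (asg s) x a
  | 0, s, a => by
    refine ⟨Nat.pair a (if s = 0 then 0 else (s - 1).unpair.2) + 1, ?_⟩
    funext x
    rcases x with _ | x
    · rw [R104.asg_cons_zero]; simp
    · rw [R104.asg_cons_succ, Function.update_of_ne (by omega)]
      split_ifs with h
      · subst h; rw [R104.asg_zero, R104.asg_zero]
      · simp [asg, h]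
  | x + 1, s, a => by
    obtain ⟨t', ht'⟩ := exists_asg x (if s = 0 then 0 else (s - 1).unpair.2) a
    refine ⟨Nat.pair (asg s 0) t' + 1, ?_⟩
    funext y
    rcases y with _ | y
    · rw [R104.asg_cons_zero, Function.update_of_ne (by omega)]
    · rw [R104.asg_cons_succ, ht']
      by_cases h : y = x
      · subst h; simp
      · rw [Function.update_of_ne h, Function.update_of_ne (by omega)]
        split_ifs with h
        · subst h; rw [R104.asg_zero, R104.asg_zero]
        · simp [asg, h]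

lemma depth_clo (s : ℕ → ℕ) : ∀ (φ : Form) (σ : List ℕ), (clo s φ σ).depth ≤ φ.str.length := by
  intro φ
  induction φ with
  | bot => intro σ; simp [clo, DB.depth, Form.str]
  | eq u v => intro σ; simp [clo, DB.depth, Form.str]
  | zero u => intro σ; simp [clo, DB.depth, Form.str]
  | succ u v => intro σ; simp [clo, DB.depth, Form.str]
  | add u v w => intro σ; simp [clo, DB.depth, Form.str]
  | mul u v w => intro σ; simp [clo, DB.depth, Form.str]
  | imp φ ψ ih ih' =>
    intro σ
    have h1 := ih σ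
    have h2 := ih' σ
    simp only [clo, DB.depth, Form.str, List.length_append, List.length_cons, List.length_nil]
    omega
  | all x φ ih =>
    intro σ
    have h1 := ih (x :: σ)
    simp only [clo, DB.depth, Form.str, List.length_append, List.length_cons, List.length_nil]
    omega

lemma slot_nil (s : ℕ → ℕ) (u : ℕ) : slot s [] u = .par (s u) := by simp [slot]

lemma clo_repl {s : ℕ → ℕ} {x y : ℕ} (h : s x = s y) {φ ψ : Form} (hr : Repl x y φ ψ) :
    clo s φ [] = clo s ψ [] := by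
  have hs : ∀ {u u' : ℕ}, Sw x y u u' → s u = s u' := by
    intro u u' hu
    rcases hu with rfl | ⟨rfl, rfl⟩
    · rfl
    · exact h
  cases hr with
  | eq h1 h2 => simp only [clo, slot_nil, hs h1, hs h2]
  | zero h1 => simp only [clo, slot_nil, hs h1]
  | succ h1 h2 => simp only [clo, slot_nil, hs h1, hs h2]
  | add h1 h2 h3 => simp only [clo, slot_nil, hs h1, hs h2, hs h3]
  | mul h1 h2 h3 => simp only [clo, slot_nil, hs h1, hs h2, hs h3]

lemma tt_atom {k : ℕ} {a b c : Slot} (h : Rtt (DB.atom k a b c).code) :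
    (∃ m, k = 1 ∧ a = .par m ∧ b = .par m) ∨ 2 ≤ k := by
  rcases h with ⟨m, h⟩ | h | ⟨m, h⟩ | ⟨m, n, h⟩ | ⟨m, n, h⟩
  · have := db_inj h
    injection this with h1 h2 h3 h4
    exact Or.inl ⟨m, h1, h2, h3⟩
  · have := db_inj h
    injection this with h1 h2 h3 h4
    exact Or.inr (by omega)
  · have := db_inj h
    injection this with h1 h2 h3 h4
    exact Or.inr (by omega)
  · have := db_inj h
    injection this with h1 h2 h3 h4
    exact Or.inr (by omega)
  · have := db_inj h
    injection this with h1 h2 h3 h4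
    exact Or.inr (by omega)

/-! ### Proofs -/

lemma not_proves_zero {Γ : List Form} {φ : Form} : ¬ Proves Γ 0 φ := by
  rintro ⟨π, _, h⟩
  simp only [strs, List.flatMap_cons, List.length_append] at h
  have h2 := Ext.len_pos φ
  simp only [Form.len] at h2
  omega

lemma len_le_of_proves {Γ : List Form} {φ : Form} {m : ℕ} (h : Proves Γ m φ) :
    φ.str.length ≤ m := by
  obtain ⟨π, _, h⟩ := h
  simp only [strs, List.flatMap_cons, List.length_append] at h
  omega

lemma proves_mono {Γ : List Form} {φ : Form} {m m' : ℕ} (h : Proves Γ m φ) (hm : m ≤ m') :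
    Proves Γ m' φ := by
  obtain ⟨π, h1, h2⟩ := h
  exact ⟨π, h1, h2.trans hm⟩

lemma proves_of_mem {Γ π : List Form} {φ ψ : Form} {l : ℕ} (hπ : IsProof Γ π)
    (hl : lens (φ :: π) ≤ l + 1) (h : ψ ∈ π) : Proves Γ l ψ := by
  obtain ⟨π', h1, h2⟩ := isProof_tail hπ h
  refine ⟨π', h1, ?_⟩
  have h3 := Ext.len_pos φ
  rw [lens_cons] at hl
  show lens (ψ :: π') ≤ l
  omega

/-! ### The standard structure -/

lemma app_std (b : Bool) (x y : ℕ) : App Std b x y ↔ y = 2 * x + if b then 2 else 1 := by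
  cases b
  · show (∃ u : ℕ, x + x = u ∧ y = u + 1) ↔ y = 2 * x + 1
    constructor
    · rintro ⟨u, h1, h2⟩
      omega
    · intro h
      exact ⟨x + x, rfl, by omega⟩
  · show (∃ u w : ℕ, x + x = u ∧ w = u + 1 ∧ y = w + 1) ↔ y = 2 * x + 2
    constructor
    · rintro ⟨u, w, h1, h2, h3⟩
      omega
    · intro h
      exact ⟨x + x, x + x + 1, rfl, rfl, by omega⟩

lemma appL_std' : ∀ (σ : List Bool) (a e : ℕ), AppL Std σ a e ↔ e = num (digits a ++ σ)
  | [], a, e => by
    show a = e ↔ _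
    rw [List.append_nil, R104.num_digits]
    exact eq_comm
  | b :: σ, a, e => by
    have hd : digits (2 * a + if b then 2 else 1) = digits a ++ [b] := by
      cases b
      · simp only [Bool.false_eq_true, if_false]; exact R104.digits_odd a
      · simp only [if_true]; exact R104.digits_even a
    show (∃ t : ℕ, App Std b a t ∧ AppL Std σ t e) ↔ _
    constructor
    · rintro ⟨t, h1, h2⟩
      rw [app_std] at h1
      rw [appL_std' σ, h1, hd] at h2
      rw [h2]; simp
    · intro h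
      refine ⟨2 * a + if b then 2 else 1, (app_std _ _ _).2 rfl, ?_⟩
      rw [appL_std' σ, hd, h]; simp

lemma strV_std' (σ : List Bool) (e : ℕ) : StrV Std σ e ↔ e = num σ := by
  show (∃ z : ℕ, z = 0 ∧ AppL Std σ z e) ↔ _
  constructor
  · rintro ⟨z, rfl, h2⟩
    rw [appL_std' σ, R104.digits_zero] at h2
    simpa using h2
  · intro h
    refine ⟨0, rfl, ?_⟩
    rw [appL_std' σ, R104.digits_zero]
    simpa using h

lemma sat_emb_std : ∀ (φ : Form) (v : ℕ → ℕ), Sat Std (emb φ : Fm Sy) v ↔ φ.Holds v := by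
  intro φ
  induction φ with
  | bot => intro v; rfl
  | eq x y => intro v; rfl
  | zero x => intro v; rfl
  | succ x y => intro v; rfl
  | add x y z => intro v; rfl
  | mul x y z => intro v; rfl
  | imp φ ψ ih ih' =>
    intro v
    show (Sat Std (emb φ) v → Sat Std (emb ψ) v) ↔ _
    rw [ih, ih']; rfl
  | all x φ ih =>
    intro v
    show (∀ a : ℕ, Sat Std (emb φ) (upd (M := ℕ) v x a)) ↔ ∀ a, φ.Holds (Function.update v x a)
    refine forall_congr' fun a => ?_
    rw [ih, upd_eq_update]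

/-! ### Strings of instances -/

/-- the beginning of the string of `digit x b φ` -/
def pfx (x : ℕ) (b : Bool) : List Bool :=
  if b then [true, true, true] ++ varStr 0 ++ ([true, true, false] ++ ([true, false, false] ++
    varStr x ++ varStr x ++ varStr 0) ++ ([true, true, true] ++ varStr 1 ++ ([true, true, false] ++
    ([false, true, true] ++ varStr 0 ++ varStr 1) ++ ([true, true, true] ++ varStr x ++
    ([true, true, false] ++ ([false, true, true] ++ varStr 1 ++ varStr x))))))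
  else [true, true, true] ++ varStr 0 ++ ([true, true, false] ++ ([true, false, false] ++
    varStr x ++ varStr x ++ varStr 0) ++ ([true, true, true] ++ varStr x ++
    ([true, true, false] ++ ([false, true, true] ++ varStr 0 ++ varStr x))))

lemma str_digit' (x : ℕ) (b : Bool) (φ : Form) : (digit x b φ).str = pfx x b ++ φ.str := by
  cases b
  · simp only [digit, pfx, Form.str, Bool.false_eq_true, if_false, List.append_assoc]
  · simp only [digit, pfx, Form.str, if_true, List.append_assoc]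

lemma tmpl_eq (x : ℕ) (b : Bool) : tmpl x b = pfx x b := by
  unfold tmpl
  rw [str_digit']
  have h : ∀ l : List Bool, (l ++ [false, false, false]).dropLast.dropLast.dropLast = l := by
    intro l
    have h1 : l ++ [false, false, false] = ((l ++ [false]) ++ [false]) ++ [false] := by simp
    rw [h1, List.dropLast_concat, List.dropLast_concat, List.dropLast_concat]
  exact h _

theorem str_inst' (x n : ℕ) (φ : Form) :
    (inst x n φ).str = hd x ++ (digits n).flatMap (tmpl x) ++ φ.str := by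
  have h : ∀ w : List Bool, (w.foldr (digit x) φ).str = w.flatMap (tmpl x) ++ φ.str := by
    intro w
    induction w with
    | nil => rfl
    | cons b w ih =>
      rw [List.foldr_cons, str_digit', ih, List.flatMap_cons, tmpl_eq, List.append_assoc]
  unfold inst
  simp only [Form.str, h, hd, List.append_assoc]

end J197

open J197

theorem std_rob : Rob Std where
  z_ex := ⟨(0 : ℕ), rfl⟩
  z_un := fun (x y : ℕ) (hx : x = 0) (hy : y = 0) => hx.trans hy.symm
  s_ex := fun (x : ℕ) => ⟨x + 1, rfl⟩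
  s_un := fun (x y z : ℕ) (h1 : y = x + 1) (h2 : z = x + 1) => h1.trans h2.symm
  a_ex := fun (x y : ℕ) => ⟨x + y, rfl⟩
  a_un := fun (x y z w : ℕ) (h1 : x + y = z) (h2 : x + y = w) => h1.symm.trans h2
  m_ex := fun (x y : ℕ) => ⟨x * y, rfl⟩
  m_un := fun (x y z w : ℕ) (h1 : x * y = z) (h2 : x * y = w) => h1.symm.trans h2
  s_nz := fun (x y : ℕ) (h1 : y = x + 1) (h2 : y = 0) => by omega
  s_inj := fun (x y z : ℕ) (h1 : z = x + 1) (h2 : z = y + 1) =>
    Nat.succ_injective (h1.symm.trans h2)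
  pred := fun (x : ℕ) (h : ¬ x = 0) => Nat.exists_eq_succ_of_ne_zero h
  a_z := fun (x y : ℕ) (h : y = 0) => by
    subst h
    exact Nat.add_zero x
  a_s := fun (x y y' w w' : ℕ) (h1 : y' = y + 1) (h2 : x + y = w) (h3 : w' = w + 1) => by
    subst h1 h3 h2
    exact (Nat.add_assoc x y 1).symm
  m_z := fun (x y : ℕ) (h : y = 0) => by
    subst h
    exact Nat.mul_zero x
  m_s := fun (x y y' w w' : ℕ) (h1 : y' = y + 1) (h2 : x * y = w) (h3 : w + x = w') => by
    subst h1 h2 h3
    exact Nat.mul_succ x y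

theorem std_q0 : ∀ z l Q y, Std.zero l → ¬ Std.op .q z l Q y := by
  rintro z l Q y (h : l = (0 : ℕ)) ⟨⟨Γ, φ, _, _, h1⟩, _⟩
  subst h
  exact not_proves_zero h1

theorem std_q3 : ∀ z Q y, Std.r3 .p z Q y → Std.op .q z Q Q y := by
  intro (z : ℕ) (Q : ℕ) (y : ℕ) h
  exact ⟨h, le_refl Q⟩

theorem std_q4 : ∀ z m y m', Std.r3 .p z m y → Std.succ m m' → Std.r3 .p z m' y := by
  intro (z : ℕ) (m : ℕ) (y : ℕ) (m' : ℕ) ⟨Γ, φ, h1, h2, h3⟩ (h : m' = m + 1)
  refine ⟨Γ, φ, h1, h2, proves_mono h3 ?_⟩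
  subst h
  exact Nat.le_succ _

theorem std_q2 : ∀ z l Q y s F, Std.op .q z l Q y → Std.r3 .cl y s F → Std.r2 .dp F Q := by
  rintro z l Q y s F ⟨⟨Γ, φ, h1, h2, h3⟩, hQ⟩ ⟨ψ, h4, h5⟩
  obtain rfl := code1_inj (h2.symm.trans h4)
  exact ⟨_, h5, (depth_clo _ _ _).trans ((len_le_of_proves h3).trans hQ)⟩

/-- here P represents provability -/
theorem std_p1 (P : Form) (hP : Represents P) : ∀ v : ℕ → Std.M, ∀ z m y,
    Sat Std (emb' P) (upd (upd (upd v 2 z) 3 m) 4 y) → Std.r3 .p z m y := by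
  intro v z m y h
  rw [sat_emb'] at h
  exact (hP.2 _).1 ((sat_emb_std P _).1 h)

namespace J197

/-- the shapes of the logical axioms -/
lemma log_shape {φ : Form} (h : LogAx φ) (s : ℕ) :
    cK Std (clo (asg s) φ []).code ∨ cS Std (clo (asg s) φ []).code ∨
    cN Std (clo (asg s) φ []).code ∨ cI Std (clo (asg s) φ []).code ∨
    cD Std (clo (asg s) φ []).code ∨ (Rat (clo (asg s) φ []).code ∧ Rtt (clo (asg s) φ []).code) ∨
    cR Std (clo (asg s) φ []).code := by
  cases h with
  | k φ ψ =>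
    refine Or.inl ⟨(clo (asg s) φ []).code, (clo (asg s) ψ []).code, _, ⟨_, _, rfl, rfl, rfl⟩,
      ⟨_, _, rfl, rfl, rfl⟩⟩
  | s φ ψ χ =>
    refine Or.inr (Or.inl ⟨(clo (asg s) φ []).code, (clo (asg s) ψ []).code,
      (clo (asg s) χ []).code, _, _, _, _, _, ⟨_, _, rfl, rfl, rfl⟩, ⟨_, _, rfl, rfl, rfl⟩,
      ⟨_, _, rfl, rfl, rfl⟩, ⟨_, _, rfl, rfl, rfl⟩, ⟨_, _, rfl, rfl, rfl⟩,
      ⟨_, _, rfl, rfl, rfl⟩⟩)
  | dn φ =>
    refine Or.inr (Or.inr (Or.inl ⟨(clo (asg s) φ []).code, (clo (asg s) Form.bot []).code, _, _,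
      ⟨_, _, _, _, rfl⟩, fun h => ?_, ⟨_, _, rfl, rfl, rfl⟩, ⟨_, _, rfl, rfl, rfl⟩,
      ⟨_, _, rfl, rfl, rfl⟩⟩))
    rcases tt_atom h with ⟨m, h1, _⟩ | h1 <;> omega
  | inst x y φ hf =>
    refine Or.inr (Or.inr (Or.inr (Or.inl ⟨(clo (asg s) φ [x]).code, _, asg s y,
      (clo (asg s) (φ.subst x y) []).code, ⟨_, rfl, rfl⟩, ⟨_, rfl, ?_⟩, ⟨_, _, rfl, rfl, rfl⟩⟩)))
    rw [put_clo0, clo_subst hf (by simp) (by simp)]
  | dist x φ ψ hf =>
    refine Or.inr (Or.inr (Or.inr (Or.inr (Or.inl ⟨(clo (asg s) φ [x]).code,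
      (clo (asg s) ψ [x]).code, _, _, _, (clo (asg s) φ []).code, _,
      ⟨_, _, rfl, rfl, rfl⟩, ⟨_, rfl, rfl⟩, ⟨_, rfl, rfl⟩, ⟨_, _, rfl, rfl, rfl⟩,
      ⟨_, _, rfl, rfl, rfl⟩, ?_⟩))))
    intro (a : ℕ) (I' : ℕ) ⟨g, h1, h2⟩
    obtain rfl := db_inj h1
    refine ⟨_, ⟨_, rfl, rfl⟩, ⟨clo (asg s) φ [], _, rfl, rfl, ?_⟩⟩
    rw [h2]
    have h3 : (clo (asg s) φ [x]).put a 0 = clo (asg s) φ [] := by
      rw [put_clo0, clo_upd_of_not_free _ hf]
    simp only [DB.put, h3]
  | refl x =>
    refine Or.inr (Or.inr (Or.inr (Or.inr (Or.inr (Or.inl ⟨⟨_, _, _, _, rfl⟩, Or.inl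
      ⟨asg s x, ?_⟩⟩)))))
    simp only [clo, slot_nil]
  | repl x y φ ψ hr =>
    refine Or.inr (Or.inr (Or.inr (Or.inr (Or.inr (Or.inr
      ⟨(clo (asg s) (Form.eq x y) []).code, (clo (asg s) φ []).code, (clo (asg s) ψ []).code, _,
      ⟨_, _, _, _, rfl⟩, fun h => ?_, ⟨_, _, rfl, rfl, rfl⟩, ⟨_, _, rfl, rfl, rfl⟩⟩)))))
    have hxy : asg s x = asg s y := by
      simp only [clo, slot_nil] at h
      rcases tt_atom h with ⟨m, _, h1, h2⟩ | h1
      · injection h1 with h1
        injection h2 with h2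
        rw [h1, h2]
      · omega
    rw [clo_repl hxy hr]

end J197

theorem std_q1 : ∀ z l l' Q y s F, Std.succ l l' → Std.op .q z l' Q y →
    Std.r3 .cl y s F → Std.r2 .mem y z ∨ cK Std F ∨ cS Std F ∨ cN Std F ∨ cI Std F ∨ cD Std F ∨
      (Std.r1 .at F ∧ Std.r1 .tt F) ∨ cR Std F ∨
      (∃ u w G H, Std.op .q z l Q u ∧ Std.op .q z l Q w ∧ Std.r3 .cl u s G ∧ Std.r3 .cl w s H ∧
        Std.r3 .im G F H) ∨
      (∃ u G, Std.op .q z l Q u ∧ Std.r2 .al G F ∧ ∀ a H, Std.r3 .ins G a H →
        ∃ s', Std.r3 .cl u s' H) := by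
  intro (z : ℕ) (l : ℕ) (l' : ℕ) (Q : ℕ) (y : ℕ) (s : ℕ) (F : ℕ) (hl : l' = l + 1)
    ⟨⟨Γ, φ, h1, h2, h3⟩, (hQ : l' ≤ Q)⟩ ⟨ψ, h4, h5⟩
  obtain rfl := code1_inj (h2.symm.trans h4)
  subst hl h1 h2 h5
  obtain ⟨π, hπ, hlen⟩ := h3
  have hpm : ∀ ψ ∈ π, Proves Γ l ψ := fun ψ hψ => proves_of_mem hπ.1 hlen hψ
  have hlQ : l ≤ Q := (Nat.le_succ l).trans hQ
  rcases hπ.2 with h | h | ⟨ψ, h6, h7⟩ | ⟨ψ, h6, x, h7⟩
  · exact Or.inl ⟨Γ, φ, rfl, rfl, h⟩
  · rcases log_shape h s with h | h | h | h | h | h | h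
    · exact Or.inr (Or.inl h)
    · exact Or.inr (Or.inr (Or.inl h))
    · exact Or.inr (Or.inr (Or.inr (Or.inl h)))
    · exact Or.inr (Or.inr (Or.inr (Or.inr (Or.inl h))))
    · exact Or.inr (Or.inr (Or.inr (Or.inr (Or.inr (Or.inl h)))))
    · exact Or.inr (Or.inr (Or.inr (Or.inr (Or.inr (Or.inr (Or.inl h))))))
    · exact Or.inr (Or.inr (Or.inr (Or.inr (Or.inr (Or.inr (Or.inr (Or.inl h)))))))
  · refine Or.inr (Or.inr (Or.inr (Or.inr (Or.inr (Or.inr (Or.inr (Or.inr (Or.inl
      ⟨code [ψ], code [ψ.imp φ], (clo (asg s) ψ []).code, (clo (asg s) (ψ.imp φ) []).code,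
      ⟨⟨Γ, ψ, rfl, rfl, hpm _ h6⟩, hlQ⟩, ⟨⟨Γ, ψ.imp φ, rfl, rfl, hpm _ h7⟩, hlQ⟩,
      ⟨ψ, rfl, rfl⟩, ⟨ψ.imp φ, rfl, rfl⟩, ⟨_, _, rfl, rfl, rfl⟩⟩))))))))
  · subst h7
    refine Or.inr (Or.inr (Or.inr (Or.inr (Or.inr (Or.inr (Or.inr (Or.inr (Or.inr
      ⟨code [ψ], (clo (asg s) ψ [x]).code, ⟨⟨Γ, ψ, rfl, rfl, hpm _ h6⟩, hlQ⟩,
      ⟨_, rfl, rfl⟩, ?_⟩))))))))
    intro (a : ℕ) (H : ℕ) ⟨g, h8, h9⟩
    obtain rfl := db_inj h8
    obtain ⟨s', hs'⟩ := exists_asg x s a
    refine ⟨s', ψ, rfl, ?_⟩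
    rw [h9, put_clo0, hs']

/-- the reduction axiom is true -/
theorem std_R2 (P : Form) (hP : ∀ x, P.Free x → x = 2 ∨ x = 3 ∨ x = 4) :
    ∀ a u w1 w2 y w3 z l l1 l2 M q1 q2 q3,
    Std.r1 .lc a → Std.r3 .tm3 a u w1 → Std.r3 .tm2 w1 a w2 → StrV Std [false, false, false] y →
    Std.r3 .tm4 w2 y w3 → AppL Std P.neg.str w3 z → Std.r2 .ln u l → Std.succ l l1 → Std.succ l1 l2 →
    Std.mul l2 l2 M → Std.mul M M q1 → Std.mul q1 q1 q2 → Std.mul q2 q2 q3 → Std.r3 .p z M y →
    Std.r3 .p a q3 y := by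
  intro (a : ℕ) (u : ℕ) (w1 : ℕ) (w2 : ℕ) (y : ℕ) (w3 : ℕ) (z : ℕ) (l : ℕ) (l1 : ℕ) (l2 : ℕ)
    (M : ℕ) (q1 : ℕ) (q2 : ℕ) (q3 : ℕ) ⟨Γ, ha⟩ (h1 : Rtm 3 a u w1) (h2 : Rtm 2 w1 a w2) h3
    (h4 : Rtm 4 w2 y w3) h5 (h6 : Rln u l) (h7 : l1 = l + 1) (h8 : l2 = l1 + 1)
    (h9 : l2 * l2 = M) (h10 : M * M = q1) (h11 : q1 * q1 = q2) (h12 : q2 * q2 = q3)
    ⟨Γ', φ', h13, h14, h15⟩
  rw [strV_std'] at h3
  rw [appL_std'] at h5
  have hy : y = code [Form.bot] := by rw [h3, R104.code_single]; rfl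
  have hb : φ' = Form.bot := code1_inj (h14.symm.trans hy)
  subst hb
  have hz : z = code (Γ ++ [conAt P Γ u]) := by
    rw [h5]
    unfold code strs
    congr 1
    rw [List.flatMap_append, List.flatMap_singleton]
    unfold conAt con
    rw [str_inst', str_inst', str_inst']
    have e1 : digits a = List.flatMap Form.str Γ := by rw [ha]; exact R104.digits_num _
    have e2 : digits (code Γ) = digits a := by rw [ha]
    unfold Rtm at h1 h2 h4
    rw [h4, R104.digits_num, h2, R104.digits_num, h1, R104.digits_num, e2, hy, e1]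
    simp only [List.append_assoc]
  have hΓ : Γ' = Γ ++ [conAt P Γ u] := code_inj (h13.symm.trans hz)
  subst hΓ
  unfold Rln at h6
  have hM : M = ((digits u).length + 2) ^ 2 := by
    rw [← h9, h8, h7, h6]; ring
  have h16 := gap P hP Γ u M hM.le h15
  rw [← hM] at h16
  refine ⟨Γ, Form.bot, ha, hy, proves_mono h16 ?_⟩
  have hM4 : 4 ≤ M := by rw [hM]; nlinarith [Nat.zero_le (digits u).length]
  have hq1 : 4 * M ≤ q1 := by rw [← h10]; exact Nat.mul_le_mul_right M hM4
  have hq1' : 16 ≤ q1 := by omega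
  have hq2 : 16 * (4 * M) ≤ q2 := by rw [← h11]; exact Nat.mul_le_mul hq1' hq1
  have hq2' : 256 ≤ q2 := by omega
  have hq3 : 256 * (16 * (4 * M)) ≤ q3 := by rw [← h12]; exact Nat.mul_le_mul hq2' hq2
  omega

end Pool.Agent.TH672
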